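import Pool.Agent.Lib.helper7.Mag

set_option autoImplicit false

namespace Pool.Agent.Results.MP_3489b6_co.Pos

open Classical Pool.Agent.Lib.helper7.Mag Finset

theorem result (d : ℕ) (hd : 3 ≤ d) : 0 < d - 2 * Real.sqrt (d - 1) ∧
    ∀ (V : Type) [Fintype V] [Nonempty V] (G : SimpleGraph V), (∀ x, d ≤ G.degree x) →
      d - 2 * Real.sqrt (d - 1) ≤ nu G := by
  have h3 : (3 : ℝ) ≤ d := by exact_mod_cast hd
  obtain ⟨r, hr⟩ : ∃ r, r = Real.sqrt (d - 1) := ⟨_, rfl⟩
  have r2 : r * r = d - 1 := by rw [hr]; exact Real.mul_self_sqrt (by linarith)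
  have r0 : 0 ≤ r := by rw [hr]; exact Real.sqrt_nonneg _
  have r1 : 1 < r := by nlinarith
  rw [← hr]
  refine ⟨by nlinarith, fun V _ hV G hG => ?_⟩
  obtain ⟨o⟩ := hV
  have cnt : ∀ (A : Finset V) (k : ℝ), A.card ≤ k → ∑ _w ∈ A, 1 / r ≤ k / r := by
    intro A k h
    rw [sum_const, nsmul_eq_mul, mul_one_div]
    exact div_le_div_of_nonneg_right h r0
  refine le_nu G _ o (fun _ _ => r) (fun _ _ _ => by linarith) (fun v u ha _ => ?_)
    fun u => ?_
  · have a : (d : ℝ) ≤ G.degree u := by exact_mod_cast hG u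
    have b := card_erase_add_one (show v ∈ G.neighborFinset u by simpa using ha.symm)
    rw [SimpleGraph.card_neighborFinset_eq_degree] at b
    have c : ((((G.neighborFinset u).erase v).erase o).card : ℝ) ≤ G.degree u - 1 := by
      rw [← b]; push_cast
      have := card_erase_le (s := (G.neighborFinset u).erase v) (a := o)
      have : ((((G.neighborFinset u).erase v).erase o).card : ℝ) ≤
        ((G.neighborFinset u).erase v).card := by exact_mod_cast this
      linarith
    have e := cnt _ _ c
    have f : (G.degree u - 1 : ℝ) / r ≤ G.degree u - d + r := by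
      rw [div_le_iff₀ (by linarith)]; nlinarith
    linarith
  · have a : (d : ℝ) ≤ G.degree u := by exact_mod_cast hG u
    have c : (((G.neighborFinset u).erase o).card : ℝ) ≤ G.degree u := by
      exact_mod_cast card_erase_le
    have e := cnt _ _ c
    have f : (G.degree u : ℝ) / r < G.degree u - d + 2 * r := by
      rw [div_lt_iff₀ (by linarith)]; nlinarith
    linarith

end Pool.Agent.Results.MP_3489b6_co.Pos
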